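import Mathlib
import Pool.Agent.H.MP_87e2cd_co.A

namespace Pool.Agent.Results.MP_87e2cd_co.All

/-- `C_m ∪ C_n` has an edge-magic total labeling: `f` labels the vertices, `g` the edges
(edge `i` of a cycle joins vertex `i` to vertex `i+1` modulo the length). -/
def EMT (m n : ℕ) : Prop :=
  ∃ (f g : Fin m ⊕ Fin n → ℕ) (k : ℕ),
    Set.BijOn (Sum.elim f g) Set.univ (Set.Icc 1 (2 * (m + n))) ∧
    (∀ i j : Fin m, j.val = (i.val + 1) % m →
      f (Sum.inl i) + g (Sum.inl i) + f (Sum.inl j) = k) ∧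
    (∀ i j : Fin n, j.val = (i.val + 1) % n →
      f (Sum.inr i) + g (Sum.inr i) + f (Sum.inr j) = k)

open Pool.Agent.H.MP_87e2cd_co

theorem result (m n : ℕ) (hm : 3 ≤ m) (hn : 3 ≤ n) : EMT m n ↔ ¬ (m = 3 ∧ n = 3) := by
  constructor
  · rintro ⟨f, g, k, h1, h2⟩ ⟨rfl, rfl⟩
    exact no33 ⟨f, g, k, Set.injOn_univ.1 h1.injOn, fun x => h1.mapsTo (Set.mem_univ x), h2⟩
  · intro h
    obtain ⟨f, g, k, h1, h2, h3⟩ := all_e2 m n hm hn h
    refine ⟨f, g, k, ⟨fun x _ => h2 x, h1.injOn, ?_⟩, h3⟩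
    have : Sum.elim f g '' Set.univ = Set.Icc 1 (2 * (m + n)) := by
      apply Set.eq_of_subset_of_ncard_le _ _ (Set.finite_Icc _ _)
      · rintro _ ⟨x, -, rfl⟩; exact h2 x
      · rw [Set.ncard_image_of_injective _ h1, Set.ncard_univ]; simp; omega
    exact this.ge

end Pool.Agent.Results.MP_87e2cd_co.All
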